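import Pool.Agent.helper57.LQ.SpecC

/-!
# Project lq (MP_ebc808_nt), row LVL: the leading terms of `Psi 2`
-/

set_option autoImplicit false

open Finset PowerSeries

noncomputable section

namespace Pool.Agent.LQ

/-- the even coefficients of the elements of `VV 2 DD l` vanish -/
theorem LVL_even (hTGR : TGR_stmt) (l n : ℕ) (hn : ¬ Odd n) (f : FF) (hf : f ∈ VV 2 DD l) : coeff n f = 0 := by
  unfold VV at hf
  induction hf using Submodule.span_induction with
  | mem f hf =>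
    obtain ⟨i, -, hi, rfl⟩ := hf
    by_contra h
    have h1 := hTGR.2.2.2.2.1 i n h
    have h2 : Odd i := Nat.coprime_two_right.1 hi
    rw [Nat.odd_iff] at hn h2
    omega
  | zero => exact map_zero _
  | add f g _ _ hf hg => rw [map_add, hf, hg, add_zero]
  | smul c f _ hf => rw [map_smul, hf, smul_zero]

/-- the series `R` -/
def LVL_R (A : ℕ → Polynomial (ZMod 2)) (m0 s : ℕ) : FF :=
  ∑ j ∈ range (m0 + 1), ex (2 * 2 ^ s) (Polynomial.aeval DD (A j)) * ex 1 (DD ^ j)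

theorem LVL_ex1 (f : FF) : ex 1 f = f := by
  ext n
  unfold ex
  rw [coeff_mk, if_pos (one_dvd n), Nat.div_one]

theorem LVL_exA (hEXP : EXP_stmt) (s : ℕ) (A : Polynomial (ZMod 2)) :
    ex (2 * 2 ^ s) (Polynomial.aeval DD A) =
    ∑ i ∈ range (A.natDegree + 1), A.coeff i • DD ^ (2 ^ (s + 1) * i) := by
  have h0 : 2 * 2 ^ s ≠ 0 := by positivity
  rw [ex_eq h0, ← Polynomial.aeval_algHom_apply, Polynomial.aeval_eq_sum_range]
  refine Finset.sum_congr rfl fun i _ => ?_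
  rw [← ex_eq h0, show 2 * 2 ^ s = 2 ^ (s + 1) by ring, ← hEXP.2.2.1 (s + 1) DD, pow_mul]

theorem LVL_mem (hEXP : EXP_stmt) (m0 s : ℕ) (A : ℕ → Polynomial (ZMod 2)) (hA : IsBD m0 A)
    (h0 : Odd m0) : LVL_R A m0 s + DD ^ (1 + 2 * (2 ^ s * m0)) ∈ VV 2 DD (1 + 2 * (2 ^ s * m0)) := by
  have h1 : 1 ∈ range (m0 + 1) := by
    rw [Nat.odd_iff] at h0
    exact Finset.mem_range.2 (by omega)
  unfold LVL_R
  rw [← Finset.add_sum_erase _ _ h1, hA.2.1, LVL_ex1, pow_one, map_pow, Polynomial.aeval_X]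
  have e1 : ex (2 * 2 ^ s) (DD ^ m0) * DD = DD ^ (1 + 2 * (2 ^ s * m0)) := by
    rw [show 2 * 2 ^ s = 2 ^ (s + 1) by ring, ← hEXP.2.2.1 (s + 1), ← pow_mul, ← pow_succ]
    congr 1
    ring
  rw [e1]
  have e2 : ∀ a b : FF, a + b + a = b := fun a b => by
    rw [add_comm a b, add_assoc, add_self_FF, add_zero]
  rw [e2]
  refine Submodule.sum_mem _ fun j hj => ?_
  rw [Finset.mem_erase, Finset.mem_range] at hj
  rw [LVL_exA hEXP, LVL_ex1, Finset.sum_mul]
  refine Submodule.sum_mem _ fun i _ => ?_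
  by_cases hc : (A j).coeff i = 0
  · rw [hc, zero_smul, zero_mul]
    exact Submodule.zero_mem _
  · rw [smul_mul_assoc]
    apply Submodule.smul_mem
    obtain ⟨hi, hj1, hij⟩ := hA.1 j i hc
    rw [← pow_add]
    apply Submodule.subset_span
    refine ⟨_, ?_, ?_, rfl⟩
    · obtain ⟨q, hq⟩ : ∃ q, q = 2 ^ s := ⟨_, rfl⟩
      have hq1 : 1 ≤ q := by rw [hq]; exact Nat.one_le_two_pow
      have e3 : 2 ^ (s + 1) * i + j = 2 * (q * i) + j := by rw [hq]; ring
      rw [e3, ← hq]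
      obtain ⟨j', rfl⟩ : ∃ j', j = j' + 2 := by
        rw [Nat.odd_iff] at hj1
        exact ⟨j - 2, by omega⟩
      have h4 : q * (i + j' + 1) ≤ q * m0 := Nat.mul_le_mul_left _ (by omega)
      have h5 : 1 * (j' + 1) ≤ q * (j' + 1) := Nat.mul_le_mul_right _ hq1
      have h6 : q * (i + j' + 1) = q * i + q * (j' + 1) := by ring
      omega
    · rw [Nat.coprime_two_right]
      rw [Nat.odd_iff] at hj1 ⊢
      have : 2 ^ (s + 1) * i = 2 * (2 ^ s * i) := by ring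
      omega

theorem LVL_first (hSEL2 : SEL2_stmt) (hKSB : KSB_stmt) (hPS1 : PS1_stmt) (hTGR : TGR_stmt) (hEXP : EXP_stmt)
    (M : ℕ) (hM : ∀ m0 < M, Odd m0 → BD m0) (m : ℕ) (hm : m < M) : SqL 2 DD (2 * m) := by
  unfold SqL
  rw [show 1 + 4 * (2 * m) = 1 + 8 * m by ring]
  rcases Nat.eq_zero_or_pos m with rfl | hm1
  · simp only [Nat.mul_zero, Nat.add_zero, pow_one]
    rw [hPS1.2.2.2, add_self_FF]
    exact Submodule.zero_mem _
  · obtain ⟨s, m0, h0, rfl⟩ := Nat.exists_eq_two_pow_mul_odd hm1.ne'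
    have hle : m0 ≤ 2 ^ s * m0 := Nat.le_mul_of_pos_left _ (by positivity)
    obtain ⟨A, hA⟩ := hM m0 (by omega) h0
    have hR := LVL_mem hEXP m0 s A hA h0
    have hR2 : LVL_R A m0 s ∈ VV 2 DD (1 + 2 * (2 ^ s * m0) + 1) := by
      have e : LVL_R A m0 s = (LVL_R A m0 s + DD ^ (1 + 2 * (2 ^ s * m0))) + DD ^ (1 + 2 * (2 ^ s * m0)) := by
        rw [add_assoc, add_self_FF, add_zero]
      rw [e]
      refine Submodule.add_mem _ (VV_mono 2 DD (Nat.le_succ _) hR) (Submodule.subset_span ?_)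
      refine ⟨_, Nat.lt_succ_self _, ?_, rfl⟩
      rw [Nat.coprime_two_right, Nat.odd_iff]
      omega
    have key : Psi 2 (DD ^ (1 + 8 * (2 ^ s * m0))) = LVL_R A m0 s := by
      ext n
      by_cases hn : Odd n
      · rw [hSEL2 _ hm1 n hn, hKSB m0 A h0 hA s 2 1 n (by norm_num) (by decide) (by decide) hn]
        rfl
      · rw [LVL_even hTGR _ n hn _ hR2, coeff_Psi, if_neg]
        rw [Nat.coprime_two_right]
        exact hn
    rw [key]
    exact hR

theorem LVL (hSEL2 : SEL2_stmt) (hKSB : KSB_stmt) (hPS1 : PS1_stmt) (hTGR : TGR_stmt) (hEXP : EXP_stmt) :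
    LVL_stmt := by
  intro M hM
  have h1 := LVL_first hSEL2 hKSB hPS1 hTGR hEXP M hM
  refine ⟨h1, fun m hm => ?_⟩
  unfold SqP
  intro f hf
  have hle : VV 2 DD (1 + 4 * (2 * m)) ≤ Submodule.comap (Psi 2) (VV 2 DD (1 + 2 * m)) := by
    unfold VV
    rw [Submodule.span_le]
    rintro f ⟨i, hi, hi2, rfl⟩
    rw [SetLike.mem_coe, Submodule.mem_comap]
    by_cases h8 : i % 8 = 1
    · obtain ⟨m', rfl⟩ : ∃ m', i = 1 + 8 * m' := ⟨i / 8, by omega⟩
      have h2 := h1 m' (by omega)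
      unfold SqL at h2
      rw [show 1 + 4 * (2 * m') = 1 + 8 * m' by ring] at h2
      have e : Psi 2 (DD ^ (1 + 8 * m')) = (Psi 2 (DD ^ (1 + 8 * m')) + DD ^ (1 + 2 * m')) + DD ^ (1 + 2 * m') := by
        rw [add_assoc, add_self_FF, add_zero]
      rw [e]
      refine Submodule.add_mem _ (VV_mono 2 DD (by omega) h2) (Submodule.subset_span ?_)
      refine ⟨_, by omega, ?_, rfl⟩
      rw [Nat.coprime_two_right, Nat.odd_iff]
      omega
    · rw [hPS1.2.2.1 i h8]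
      exact Submodule.zero_mem _
  exact hle hf

end Pool.Agent.LQ
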