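import Pool.Agent.helper57.LQ.SpecB

/-!
# Project lq (MP_ebc808_nt), row ME5: the modular equation of degree 5
-/

set_option autoImplicit false

open Finset PowerSeries

noncomputable section

namespace Pool.Agent.LQ

/-- power series as Laurent series -/
def ME5_i (f : FF) : Pool.Agent.EP.KK := HahnSeries.ofPowerSeries ℤ (ZMod 2) f

theorem ME5_i_mul (f g : FF) : ME5_i (f * g) = ME5_i f * ME5_i g := map_mul _ f g

theorem ME5_i_add (f g : FF) : ME5_i (f + g) = ME5_i f + ME5_i g := map_add _ f g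

theorem ME5_i_pow (f : FF) (k : ℕ) : ME5_i (f ^ k) = ME5_i f ^ k := map_pow _ f k

theorem ME5_i_inj {f g : FF} (h : ME5_i f = ME5_i g) : f = g := HahnSeries.ofPowerSeries_injective h

theorem ME5_i_zero : ME5_i 0 = 0 := map_zero _

theorem ME5_i_one : ME5_i 1 = 1 := map_one _

theorem ME5_co (f : FF) (c M : ℤ) : (HahnSeries.single (-c) (1 : ZMod 2) * ME5_i f).coeff M =
    if 0 ≤ M + c then coeff (M + c).toNat f else 0 := by
  have h := HahnSeries.coeff_single_mul_add (r := (1 : ZMod 2)) (x := ME5_i f) (a := M + c) (b := -c)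
  rw [one_mul, add_neg_cancel_right] at h
  rw [h]
  unfold ME5_i
  rw [PowerSeries.coeff_coe]
  by_cases h0 : 0 ≤ M + c
  · rw [if_neg (not_lt.2 h0), if_pos h0]
    congr 2
    omega
  · rw [if_pos (not_le.1 h0), if_neg h0]

theorem ME5_single (a b : ℤ) : HahnSeries.single a (1 : ZMod 2) * HahnSeries.single b (1 : ZMod 2) =
    (HahnSeries.single (a + b) (1 : ZMod 2) : Pool.Agent.EP.KK) := by
  rw [HahnSeries.single_mul_single, mul_one]

theorem ME5_single_pow (a : ℤ) (k : ℕ) : (HahnSeries.single a (1 : ZMod 2) : Pool.Agent.EP.KK) ^ k =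
    HahnSeries.single (k * a) (1 : ZMod 2) := by
  rw [HahnSeries.single_pow, one_pow, nsmul_eq_mul]

theorem ME5_X (k : ℕ) : ME5_i (X ^ k) = HahnSeries.single (k : ℤ) (1 : ZMod 2) :=
  HahnSeries.ofPowerSeries_X_pow k

/-- `f(x^24)` -/
def ME5_e (f : FF) : FF := PowerSeries.expand 24 (by norm_num) f

theorem ME5_e_mul (f g : FF) : ME5_e (f * g) = ME5_e f * ME5_e g := map_mul _ f g

theorem ME5_e_add (f g : FF) : ME5_e (f + g) = ME5_e f + ME5_e g := map_add _ f g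

theorem ME5_e_pow (f : FF) (k : ℕ) : ME5_e (f ^ k) = ME5_e f ^ k := map_pow _ f k

theorem ME5_e_X (k : ℕ) : ME5_e (X ^ k) = X ^ (24 * k) := by
  unfold ME5_e
  rw [map_pow, PowerSeries.expand_X, ← pow_mul]

theorem ME5_ww : Pool.Agent.EP.ww = HahnSeries.single (-1 : ℤ) (1 : ZMod 2) * ME5_i (ME5_e helper81.PP) := rfl

/-- the series `ww(x^5)` -/
def ME5_w5 : Pool.Agent.EP.KK :=
  HahnSeries.single (-5 : ℤ) (1 : ZMod 2) *
    ME5_i (ME5_e (PowerSeries.expand 5 (by norm_num) helper81.PP))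

theorem ME5_coe (f : FF) (k : ℕ) : coeff k (ME5_e f) = if 24 ∣ k then coeff (k / 24) f else 0 := by
  unfold ME5_e
  rw [PowerSeries.coeff_expand]

theorem ME5_w5_coeff (M : ℤ) : ME5_w5.coeff M =
    if ((5 : ℕ) : ℤ) ∣ M then Pool.Agent.EP.ww.coeff (M / ((5 : ℕ) : ℤ)) else 0 := by
  rw [ME5_ww]
  unfold ME5_w5
  rw [ME5_co _ 5 M, ME5_co _ 1]
  by_cases h5 : ((5 : ℕ) : ℤ) ∣ M
  · obtain ⟨m, hm⟩ := h5
    have hd : M / ((5 : ℕ) : ℤ) = m := by
      rw [hm]
      exact Int.mul_ediv_cancel_left _ (by norm_num)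
    rw [if_pos (show ((5 : ℕ) : ℤ) ∣ M from ⟨m, hm⟩), hd]
    by_cases h0 : 0 ≤ m + 1
    · have h0' : 0 ≤ M + 5 := by push_cast at hm; omega
      rw [if_pos h0, if_pos h0']
      obtain ⟨k, hk⟩ : ∃ k : ℕ, m + 1 = k := ⟨(m + 1).toNat, by omega⟩
      have hk5 : (M + 5).toNat = 5 * k := by push_cast at hm; omega
      rw [hk5, hk, Int.toNat_natCast, ME5_coe, ME5_coe]
      by_cases h24 : 24 ∣ k
      · obtain ⟨j, rfl⟩ := h24
        rw [if_pos (Dvd.intro j rfl), if_pos ⟨5 * j, by ring⟩]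
        have e1 : 5 * (24 * j) / 24 = 5 * j := by omega
        have e2 : 24 * j / 24 = j := by omega
        rw [e1, e2, PowerSeries.coeff_expand_mul]
      · rw [if_neg h24, if_neg]
        intro h
        omega
    · have h0' : ¬ 0 ≤ M + 5 := by push_cast at hm; omega
      rw [if_neg h0, if_neg h0']
  · rw [if_neg h5]
    by_cases h0' : 0 ≤ M + 5
    · rw [if_pos h0', ME5_coe]
      by_cases h24 : 24 ∣ (M + 5).toNat
      · rw [if_pos h24, PowerSeries.coeff_expand, if_neg]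
        rintro ⟨j, hj⟩
        apply h5
        push_cast
        omega
      · rw [if_neg h24]
    · rw [if_neg h0']

/-- the products `ww^a ww(x^5)^b`, shifted -/
theorem ME5_prod (a b k : ℕ) (hk : a + 5 * b + 24 * k = 90) :
    Pool.Agent.EP.ww ^ a * ME5_w5 ^ b = HahnSeries.single (-90 : ℤ) (1 : ZMod 2) *
      ME5_i (ME5_e (X ^ k * (helper81.PP ^ a * PowerSeries.expand 5 (by norm_num) helper81.PP ^ b))) := by
  have hk' : ((a : ℤ) * (-1) + (b : ℤ) * (-5)) = -90 + ((24 * k : ℕ) : ℤ) := by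
    push_cast
    omega
  rw [ME5_ww, ME5_w5, mul_pow, mul_pow, ME5_single_pow, ME5_single_pow, ME5_e_mul, ME5_i_mul, ME5_e_X, ME5_X,
    ← mul_assoc (HahnSeries.single (-90 : ℤ) (1 : ZMod 2)), ME5_single, ← hk', ← ME5_single, ME5_e_mul, ME5_i_mul,
    ME5_e_pow, ME5_e_pow, ME5_i_pow, ME5_i_pow]
  ring

/-- the ring computation -/
theorem ME5_ring (R : Type) [CommRing R] (x y e : R) (h2 : (2 : R) = 0) (h4 : x ^ 4 = 0)
    (he : e = 1 + x + x ^ 2) (hy : y * e = 1) :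
    x ^ 3 * y ^ 18 + x ^ 2 * y ^ 12 + x * y ^ 6 + 1 + y ^ 15 = 0 := by
  have hy1 : y = 1 + x + x ^ 3 := by
    have h1 : (1 + x + x ^ 3) * e = 1 := by
      rw [he]
      linear_combination (x + x ^ 2 + x ^ 3) * h2 + (1 + x) * h4
    calc y = y * ((1 + x + x ^ 3) * e) := by rw [h1, mul_one]
      _ = (1 + x + x ^ 3) * (y * e) := by ring
      _ = 1 + x + x ^ 3 := by rw [hy, mul_one]
  have hy2 : y ^ 2 = 1 + x ^ 2 := by
    rw [hy1]
    linear_combination (x + x ^ 3) * h2 + (2 + x ^ 2) * h4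
  have hy4 : y ^ 4 = 1 := by
    have : y ^ 4 = (y ^ 2) ^ 2 := by ring
    rw [this, hy2]
    linear_combination x ^ 2 * h2 + h4
  have e18 : y ^ 18 = 1 + x ^ 2 := by
    have : y ^ 18 = (y ^ 4) ^ 4 * y ^ 2 := by ring
    rw [this, hy4, hy2]
    ring
  have e12 : y ^ 12 = 1 := by
    have : y ^ 12 = (y ^ 4) ^ 3 := by ring
    rw [this, hy4]
    ring
  have e6 : y ^ 6 = 1 + x ^ 2 := by
    have : y ^ 6 = y ^ 4 * y ^ 2 := by ring
    rw [this, hy4, hy2]
    ring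
  have e15 : y ^ 15 = 1 + x + x ^ 2 := by
    have : y ^ 15 = (y ^ 4) ^ 3 * y ^ 2 * y := by ring
    rw [this, hy4, hy2, hy1]
    linear_combination x ^ 3 * h2 + x * h4
  rw [e18, e12, e6, e15]
  linear_combination (1 + x + x ^ 2 + x ^ 3) * h2 + x * h4

open Classical in
theorem ME5_EE (hTGR : TGR_stmt) (k : ℕ) : coeff k helper81.EE =
    if ∃ u : ℕ, u.Coprime 6 ∧ 24 * k + 1 = u ^ 2 then 1 else 0 := by
  rw [← hTGR.1]
  unfold tt
  rw [PowerSeries.coeff_succ_X_mul, PowerSeries.coeff_expand_mul]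

theorem ME5_dvd (hTGR : TGR_stmt) : (X : FF) ^ 4 ∣ helper81.EE - (1 + X + X ^ 2) := by
  rw [PowerSeries.X_pow_dvd_iff]
  intro m hm
  rw [map_sub, map_add, map_add, ME5_EE hTGR, PowerSeries.coeff_one, PowerSeries.coeff_X, PowerSeries.coeff_X_pow]
  interval_cases m
  · rw [if_pos ⟨1, by norm_num, by norm_num⟩]
    simp
  · rw [if_pos ⟨5, by norm_num, by norm_num⟩]
    simp
  · rw [if_pos ⟨7, by norm_num, by norm_num⟩]
    simp
  · rw [if_neg]
    · simp
    · rintro ⟨u, -, hu⟩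
      have h9 : u < 9 := by nlinarith
      interval_cases u <;> omega

theorem ME5_dvd5 (hTGR : TGR_stmt) :
    (X : FF) ^ 4 ∣ PowerSeries.expand 5 (by norm_num) helper81.PP - 1 := by
  have h0 : coeff 0 helper81.PP = (1 : ZMod 2) := by
    have h1 := helper81.PP_mul_EE
    have h2 := congrArg PowerSeries.constantCoeff h1
    rw [map_mul, map_one, ← PowerSeries.coeff_zero_eq_constantCoeff_apply,
      ← PowerSeries.coeff_zero_eq_constantCoeff_apply,
      ME5_EE hTGR 0, if_pos ⟨1, by norm_num, by norm_num⟩, mul_one] at h2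
    exact h2
  rw [PowerSeries.X_pow_dvd_iff]
  intro m hm
  rw [map_sub, PowerSeries.coeff_expand, PowerSeries.coeff_one]
  interval_cases m
  · simp [h0]
  · simp
  · simp
  · simp

theorem ME5_van (hTGR : TGR_stmt) : (X : FF) ^ 4 ∣
    X ^ 3 * (helper81.PP ^ 18 * PowerSeries.expand 5 (by norm_num) helper81.PP ^ 0) +
    X ^ 2 * (helper81.PP ^ 12 * PowerSeries.expand 5 (by norm_num) helper81.PP ^ 6) +
    X ^ 1 * (helper81.PP ^ 6 * PowerSeries.expand 5 (by norm_num) helper81.PP ^ 12) +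
    X ^ 0 * (helper81.PP ^ 0 * PowerSeries.expand 5 (by norm_num) helper81.PP ^ 18) +
    X ^ 0 * (helper81.PP ^ 15 * PowerSeries.expand 5 (by norm_num) helper81.PP ^ 15) := by
  rw [← Ideal.mem_span_singleton, ← Ideal.Quotient.eq_zero_iff_mem]
  have h5 : Ideal.Quotient.mk (Ideal.span {(X : FF) ^ 4}) (PowerSeries.expand 5 (by norm_num) helper81.PP) = 1 := by
    rw [← map_one (Ideal.Quotient.mk (Ideal.span {(X : FF) ^ 4})), Ideal.Quotient.eq, Ideal.mem_span_singleton]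
    exact ME5_dvd5 hTGR
  have hE : Ideal.Quotient.mk (Ideal.span {(X : FF) ^ 4}) helper81.EE =
      1 + Ideal.Quotient.mk (Ideal.span {(X : FF) ^ 4}) X + Ideal.Quotient.mk (Ideal.span {(X : FF) ^ 4}) X ^ 2 := by
    rw [← map_one (Ideal.Quotient.mk (Ideal.span {(X : FF) ^ 4})), ← map_pow, ← map_add, ← map_add,
      Ideal.Quotient.eq, Ideal.mem_span_singleton]
    exact ME5_dvd hTGR
  have hPE : Ideal.Quotient.mk (Ideal.span {(X : FF) ^ 4}) helper81.PP *
      Ideal.Quotient.mk (Ideal.span {(X : FF) ^ 4}) helper81.EE = 1 := by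
    rw [← map_mul, helper81.PP_mul_EE, map_one]
  have h4 : Ideal.Quotient.mk (Ideal.span {(X : FF) ^ 4}) X ^ 4 = 0 := by
    rw [← map_pow, Ideal.Quotient.eq_zero_iff_mem, Ideal.mem_span_singleton]
  have h2 : (2 : FF ⧸ Ideal.span {(X : FF) ^ 4}) = 0 := by
    have h : Ideal.Quotient.mk (Ideal.span {(X : FF) ^ 4}) 2 = 0 := by
      rw [helper81.two_eq_zero', map_zero]
    rw [← h, map_ofNat]
  have hr := ME5_ring _ _ _ _ h2 h4 hE hPE
  simp only [map_add, map_mul, map_pow, h5, one_pow, mul_one, pow_zero, pow_one, one_mul]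
  exact hr

/-- the coefficients of the modular equation -/
def ME5_c (i j : ℕ) : ZMod 2 :=
  (if i = 18 ∧ j = 0 then 1 else 0) + (if i = 12 ∧ j = 6 then 1 else 0) + (if i = 6 ∧ j = 12 then 1 else 0) +
    (if i = 0 ∧ j = 18 then 1 else 0) + (if i = 15 ∧ j = 15 then 1 else 0)

theorem ME5_c_symm (i j : ℕ) : ME5_c i j = ME5_c j i := by
  have e1 : (if i = 18 ∧ j = 0 then (1 : ZMod 2) else 0) = if j = 0 ∧ i = 18 then 1 else 0 := by
    simp only [and_comm]
  have e2 : (if i = 12 ∧ j = 6 then (1 : ZMod 2) else 0) = if j = 6 ∧ i = 12 then 1 else 0 := by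
    simp only [and_comm]
  have e3 : (if i = 6 ∧ j = 12 then (1 : ZMod 2) else 0) = if j = 12 ∧ i = 6 then 1 else 0 := by
    simp only [and_comm]
  have e4 : (if i = 0 ∧ j = 18 then (1 : ZMod 2) else 0) = if j = 18 ∧ i = 0 then 1 else 0 := by
    simp only [and_comm]
  have e5 : (if i = 15 ∧ j = 15 then (1 : ZMod 2) else 0) = if j = 15 ∧ i = 15 then 1 else 0 := by
    simp only [and_comm]
  unfold ME5_c
  rw [e1, e2, e3, e4, e5]
  ring

theorem ME5_pick (f : ℕ → ℕ → Pool.Agent.EP.KK) (n a b : ℕ) (ha : a < n) (hb : b < n) :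
    ∑ i ∈ range n, ∑ j ∈ range n, (if i = a ∧ j = b then (1 : ZMod 2) else 0) • f i j = f a b := by
  rw [Finset.sum_eq_single a, Finset.sum_eq_single b]
  · rw [if_pos ⟨rfl, rfl⟩, one_smul]
  · intro j _ hj
    rw [if_neg (fun h => hj h.2), zero_smul]
  · intro h
    exact absurd (Finset.mem_range.2 hb) h
  · intro i _ hi
    refine Finset.sum_eq_zero fun j _ => ?_
    rw [if_neg (fun h => hi h.1), zero_smul]
  · intro h
    exact absurd (Finset.mem_range.2 ha) h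

theorem ME5_sum (f : ℕ → ℕ → Pool.Agent.EP.KK) : ∑ i ∈ range 19, ∑ j ∈ range 19, ME5_c i j • f i j =
    f 18 0 + f 12 6 + f 6 12 + f 0 18 + f 15 15 := by
  unfold ME5_c
  simp only [add_smul, Finset.sum_add_distrib]
  rw [ME5_pick f 19 18 0 (by norm_num) (by norm_num), ME5_pick f 19 12 6 (by norm_num) (by norm_num),
    ME5_pick f 19 6 12 (by norm_num) (by norm_num), ME5_pick f 19 0 18 (by norm_num) (by norm_num),
    ME5_pick f 19 15 15 (by norm_num) (by norm_num)]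

theorem ME5_ex_inj (p : ℕ) (hp : p ≠ 0) {f g : FF} (h : ex p f = ex p g) : f = g := by
  rw [ex_eq hp, ex_eq hp] at h
  ext n
  have := congrArg (coeff (p * n)) h
  rwa [PowerSeries.coeff_expand_mul, PowerSeries.coeff_expand_mul] at this

theorem ME5 (hMEN : MEN_stmt) (hTGR : TGR_stmt) (hEXP : EXP_stmt) (hWM : Pool.Agent.EP.WM_stmt) : ME5_stmt := by
  have hsum : Pool.Agent.EP.ww ^ 18 * ME5_w5 ^ 0 + Pool.Agent.EP.ww ^ 12 * ME5_w5 ^ 6 +
      Pool.Agent.EP.ww ^ 6 * ME5_w5 ^ 12 + Pool.Agent.EP.ww ^ 0 * ME5_w5 ^ 18 +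
      Pool.Agent.EP.ww ^ 15 * ME5_w5 ^ 15 = 0 := by
    have h := hMEN 5 19 ME5_c (by norm_num) le_rfl ME5_c_symm ME5_w5 ME5_w5_coeff ?_
    · rwa [ME5_sum (fun i j => Pool.Agent.EP.ww ^ i * ME5_w5 ^ j)] at h
    · intro M hM
      rw [ME5_sum (fun i j => Pool.Agent.EP.ww ^ i * ME5_w5 ^ j)]
      rw [ME5_prod 18 0 3 (by norm_num), ME5_prod 12 6 2 (by norm_num), ME5_prod 6 12 1 (by norm_num),
        ME5_prod 0 18 0 (by norm_num), ME5_prod 15 15 0 (by norm_num), ← mul_add, ← mul_add, ← mul_add,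
        ← mul_add, ← ME5_i_add, ← ME5_i_add, ← ME5_i_add, ← ME5_i_add, ← ME5_e_add, ← ME5_e_add, ← ME5_e_add,
        ← ME5_e_add, ME5_co _ 90 M]
      by_cases h0 : 0 ≤ M + 90
      · rw [if_pos h0, ME5_coe]
        by_cases h24 : 24 ∣ (M + 90).toNat
        · rw [if_pos h24]
          exact PowerSeries.X_pow_dvd_iff.1 (ME5_van hTGR) _ (by omega)
        · rw [if_neg h24]
      · rw [if_neg h0]
  obtain ⟨-, -, h3, -, -, hv⟩ := hTGR
  have hwt : Pool.Agent.EP.ww * ME5_i tt = 1 := by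
    have : ME5_i tt = Pool.Agent.EP.vvx := hv
    rw [this]
    exact hWM.2
  have hws : ME5_w5 * ME5_i (ex 5 tt) = 1 := by
    have e1 : ex 5 tt = X ^ 5 * ME5_e (PowerSeries.expand 5 (by norm_num) helper81.EE) := by
      rw [ex_eq (by norm_num)]
      unfold tt ME5_e
      rw [map_mul, PowerSeries.expand_X, ← PowerSeries.expand_mul, ← PowerSeries.expand_mul]
    have e2 : PowerSeries.expand 5 (by norm_num) helper81.PP * PowerSeries.expand 5 (by norm_num) helper81.EE =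
        (1 : FF) := by
      rw [← map_mul, helper81.PP_mul_EE, map_one]
    rw [e1, ME5_i_mul, ME5_X]
    unfold ME5_w5
    calc HahnSeries.single (-5 : ℤ) (1 : ZMod 2) *
          ME5_i (ME5_e (PowerSeries.expand 5 (by norm_num) helper81.PP)) *
          (HahnSeries.single ((5 : ℕ) : ℤ) (1 : ZMod 2) *
          ME5_i (ME5_e (PowerSeries.expand 5 (by norm_num) helper81.EE)))
        = (HahnSeries.single (-5 : ℤ) (1 : ZMod 2) * HahnSeries.single ((5 : ℕ) : ℤ) (1 : ZMod 2)) *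
          ME5_i (ME5_e (PowerSeries.expand 5 (by norm_num) helper81.PP *
            PowerSeries.expand 5 (by norm_num) helper81.EE)) := by
          rw [ME5_e_mul, ME5_i_mul]
          ring
      _ = 1 := by
          rw [ME5_single, e2]
          have : (-5 : ℤ) + ((5 : ℕ) : ℤ) = 0 := by norm_num
          rw [this]
          have e3 : ME5_e 1 = 1 := map_one _
          rw [e3, ME5_i_one, mul_one]
          rfl
  -- the equation for `tt` and `ex 5 tt`
  have hts : tt ^ 18 + tt ^ 12 * ex 5 tt ^ 6 + tt ^ 6 * ex 5 tt ^ 12 + ex 5 tt ^ 18 + tt ^ 3 * ex 5 tt ^ 3 = 0 := by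
    apply ME5_i_inj
    rw [ME5_i_zero]
    simp only [ME5_i_add, ME5_i_mul, ME5_i_pow]
    generalize ME5_i tt = t at hwt ⊢
    generalize ME5_i (ex 5 tt) = s at hws ⊢
    generalize Pool.Agent.EP.ww = w at hwt hsum ⊢
    generalize ME5_w5 = v at hws hsum ⊢
    have hw : ∀ k : ℕ, w ^ k * t ^ k = 1 := fun k => by rw [← mul_pow, hwt, one_pow]
    have hvs : ∀ k : ℕ, v ^ k * s ^ k = 1 := fun k => by rw [← mul_pow, hws, one_pow]
    calc t ^ 18 + t ^ 12 * s ^ 6 + t ^ 6 * s ^ 12 + s ^ 18 + t ^ 3 * s ^ 3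
        = (v ^ 18 * s ^ 18) * t ^ 18 + (v ^ 12 * s ^ 12) * (w ^ 6 * t ^ 6) * (t ^ 12 * s ^ 6) +
          (v ^ 6 * s ^ 6) * (w ^ 12 * t ^ 12) * (t ^ 6 * s ^ 12) + (w ^ 18 * t ^ 18) * s ^ 18 +
          (w ^ 15 * t ^ 15) * (v ^ 15 * s ^ 15) * (t ^ 3 * s ^ 3) := by
          rw [hw, hw, hw, hw, hvs, hvs, hvs, hvs]
          ring
      _ = (w ^ 18 * v ^ 0 + w ^ 12 * v ^ 6 + w ^ 6 * v ^ 12 + w ^ 0 * v ^ 18 + w ^ 15 * v ^ 15) *
          (t ^ 18 * s ^ 18) := by ring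
      _ = 0 := by rw [hsum, zero_mul]
  -- back to `DD`
  obtain ⟨hE1, hE2, -⟩ := hEXP
  have hm3 : ∀ f g : FF, ex 3 (f * g) = ex 3 f * ex 3 g := fun f g => (hE1 3 f g (by norm_num)).1
  have ha3 : ∀ f g : FF, ex 3 (f + g) = ex 3 f + ex 3 g := fun f g => (hE1 3 f g (by norm_num)).2.1
  have hp3 : ∀ (f : FF) (k : ℕ), ex 3 (f ^ k) = ex 3 f ^ k := fun f k => (hE1 3 f f (by norm_num)).2.2.2 k
  have h35 : ex 3 (ex 5 DD) = ex 5 tt ^ 3 := by
    rw [hE2 3 5 DD (by norm_num) (by norm_num), show 3 * 5 = 5 * 3 by norm_num,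
      ← hE2 5 3 DD (by norm_num) (by norm_num), h3, (hE1 5 tt tt (by norm_num)).2.2.2 3]
  apply ME5_ex_inj 3 (by norm_num)
  rw [ha3, ha3, ha3, hm3, hm3, hm3, hp3, hp3, hp3, hp3, hp3, hp3, h35, h3]
  have h2 : tt ^ 3 * ex 5 tt ^ 3 + tt ^ 3 * ex 5 tt ^ 3 = 0 := add_self_FF _
  linear_combination hts - h2

end Pool.Agent.LQ
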