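import Pool.Agent.helper57.LQ.SpecC

/-!
# Project lq (MP_ebc808_nt), row SEL2: Selberg's identity at level one
-/

set_option autoImplicit false

open Finset PowerSeries

noncomputable section

namespace Pool.Agent.LQ

/-- pairs of positive numbers with `P a + B b = e` -/
def SEL2_S (P B e : ℕ) : Finset (ℕ × ℕ) :=
  (range (e + 1) ×ˢ range (e + 1)).filter (fun x => 0 < x.1 ∧ 0 < x.2 ∧ P * x.1 + B * x.2 = e)

theorem SEL2_mem {P B e : ℕ} {x : ℕ × ℕ} : x ∈ SEL2_S P B e ↔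
    (x.1 ≤ e ∧ x.2 ≤ e) ∧ 0 < x.1 ∧ 0 < x.2 ∧ P * x.1 + B * x.2 = e := by
  unfold SEL2_S
  rw [Finset.mem_filter, Finset.mem_product, Finset.mem_range, Finset.mem_range, Nat.lt_succ_iff,
    Nat.lt_succ_iff]

theorem SEL2_swap (c : ℕ → ZMod 2) (P B n : ℕ) (hn : n ≠ 0) :
    ∑ e ∈ n.divisors, ∑ x ∈ SEL2_S P B e, c (x.1 * x.2) =
    ∑ x ∈ SEL2_S P B n, ∑ d ∈ (Nat.gcd x.2 x.1).divisors, c (x.2 * x.1 / d ^ 2) := by
  rw [← Nat.sum_div_divisors n (fun e => ∑ x ∈ SEL2_S P B e, c (x.1 * x.2)), Finset.sum_sigma',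
    Finset.sum_sigma']
  refine Finset.sum_bij' (fun p _ => ⟨(p.1 * p.2.1, p.1 * p.2.2), p.1⟩)
    (fun q _ => ⟨q.2, (q.1.1 / q.2, q.1.2 / q.2)⟩) ?_ ?_ ?_ ?_ ?_
  · rintro ⟨d, a, b⟩ hp
    rw [Finset.mem_sigma, SEL2_mem, Nat.mem_divisors] at hp
    obtain ⟨⟨hd, -⟩, ⟨h1, h2⟩, h3, h4, h5⟩ := hp
    simp only at h1 h2 h3 h4 h5 hd ⊢
    obtain ⟨k, rfl⟩ := hd
    have hd0 : 0 < d := Nat.pos_of_ne_zero (fun h => hn (by rw [h, zero_mul]))
    rw [Nat.mul_div_cancel_left _ hd0] at h1 h2 h5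
    rw [Finset.mem_sigma, SEL2_mem, Nat.mem_divisors]
    simp only
    refine ⟨⟨⟨Nat.mul_le_mul_left _ h1, Nat.mul_le_mul_left _ h2⟩, Nat.mul_pos hd0 h3, Nat.mul_pos hd0 h4, ?_⟩,
      Nat.dvd_gcd (Dvd.intro _ rfl) (Dvd.intro _ rfl), ?_⟩
    · rw [← h5]
      ring
    · exact (Nat.gcd_pos_of_pos_left _ (Nat.mul_pos hd0 h4)).ne'
  · rintro ⟨⟨a, b⟩, d⟩ hq
    rw [Finset.mem_sigma, SEL2_mem, Nat.mem_divisors] at hq
    obtain ⟨⟨⟨h1, h2⟩, h3, h4, h5⟩, hd, h6⟩ := hq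
    simp only at h1 h2 h3 h4 h5 hd ⊢
    obtain ⟨b', rfl⟩ := hd.trans (Nat.gcd_dvd_left _ _)
    obtain ⟨a', rfl⟩ := hd.trans (Nat.gcd_dvd_right _ _)
    have hd0 : 0 < d := Nat.pos_of_ne_zero (fun h => h4.ne' (by rw [h, zero_mul]))
    have hk : n = d * (P * a' + B * b') := by rw [← h5]; ring
    rw [Finset.mem_sigma, SEL2_mem, Nat.mem_divisors]
    simp only
    rw [Nat.mul_div_cancel_left _ hd0, Nat.mul_div_cancel_left _ hd0]
    have hnd : n / d = P * a' + B * b' := by rw [hk, Nat.mul_div_cancel_left _ hd0]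
    refine ⟨⟨⟨_, hk⟩, hn⟩, ⟨?_, ?_⟩, Nat.pos_of_mul_pos_left h3, Nat.pos_of_mul_pos_left h4, hnd.symm⟩
    · rw [Nat.le_div_iff_mul_le hd0, mul_comm]
      exact h1
    · rw [Nat.le_div_iff_mul_le hd0, mul_comm]
      exact h2
  · rintro ⟨d, a, b⟩ hp
    rw [Finset.mem_sigma, Nat.mem_divisors] at hp
    have hd0 : 0 < d := Nat.pos_of_dvd_of_pos hp.1.1 (Nat.pos_of_ne_zero hn)
    simp only
    rw [Nat.mul_div_cancel_left _ hd0, Nat.mul_div_cancel_left _ hd0]
  · rintro ⟨⟨a, b⟩, d⟩ hq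
    rw [Finset.mem_sigma, Nat.mem_divisors] at hq
    have hd := hq.2.1
    simp only at hd ⊢
    rw [Nat.mul_div_cancel' (hd.trans (Nat.gcd_dvd_right _ _)), Nat.mul_div_cancel' (hd.trans (Nat.gcd_dvd_left _ _))]
  · rintro ⟨d, a, b⟩ hp
    rw [Finset.mem_sigma, Nat.mem_divisors] at hp
    have hd0 : 0 < d := Nat.pos_of_dvd_of_pos hp.1.1 (Nat.pos_of_ne_zero hn)
    simp only
    congr 1
    rw [show d * b * (d * a) = d ^ 2 * (a * b) by ring, Nat.mul_div_cancel_left _ (by positivity)]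

/-- the coefficients of a product with `DD` -/
theorem SEL2_mul (hTGR : TGR_stmt) (h : FF) (N : ℕ) : coeff N (DD * h) =
    ∑ v ∈ (range (N + 1)).filter (fun v => Odd v ∧ v ^ 2 ≤ N), coeff (N - v ^ 2) h := by
  rw [PowerSeries.coeff_mul, Finset.Nat.sum_antidiagonal_eq_sum_range_succ_mk]
  have key : ∑ k ∈ range N.succ, coeff k DD * coeff (N - k) h =
      ∑ k ∈ ((range (N + 1)).filter (fun v => Odd v ∧ v ^ 2 ≤ N)).image (fun v => v ^ 2),
        coeff k DD * coeff (N - k) h := by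
    symm
    apply Finset.sum_subset
    · intro k hk
      rw [Finset.mem_image] at hk
      obtain ⟨v, hv, rfl⟩ := hk
      rw [Finset.mem_filter] at hv
      exact Finset.mem_range.2 (by omega)
    · intro k hk hk'
      rw [hTGR.2.1, if_neg, zero_mul]
      rintro ⟨v, hv, rfl⟩
      apply hk'
      rw [Finset.mem_image]
      refine ⟨v, ?_, rfl⟩
      rw [Finset.mem_range] at hk
      rw [Finset.mem_filter, Finset.mem_range]
      refine ⟨?_, hv, by omega⟩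
      have : v ≤ v ^ 2 := Nat.le_self_pow (by norm_num) v
      omega
  rw [key, Finset.sum_image]
  · refine Finset.sum_congr rfl fun v hv => ?_
    rw [Finset.mem_filter] at hv
    rw [hTGR.2.1, if_pos ⟨v, hv.2.1, rfl⟩, one_mul]
  · intro a _ b _ hab
    exact Nat.pow_left_injective (n := 2) (by norm_num) hab

theorem SEL2_zero (hTGR : TGR_stmt) (m : ℕ) (hm : 1 ≤ m) : coeff 0 (DD ^ m) = 0 := by
  rw [PowerSeries.coeff_zero_eq_constantCoeff_apply, map_pow, ← PowerSeries.coeff_zero_eq_constantCoeff_apply,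
    hTGR.2.1, if_neg, zero_pow (by omega)]
  rintro ⟨v, hv, h⟩
  have : v = 0 := by
    by_contra h0
    have : 0 < v ^ 2 := by positivity
    omega
  rw [this] at hv
  exact absurd hv (by decide)

theorem SEL2_e (hTGR : TGR_stmt) (hEXP : EXP_stmt) (m : ℕ) (hm : 1 ≤ m) (e : ℕ) (he : Odd e) :
    coeff (e ^ 2) (DD ^ (1 + 8 * m)) = ∑ x ∈ SEL2_S 2 1 e, coeff (x.1 * x.2) (DD ^ m) := by
  have e1 : DD ^ (1 + 8 * m) = DD * ex 8 (DD ^ m) := by
    rw [pow_add, pow_one]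
    congr 1
    have h8 := hEXP.2.2.1 3 (DD ^ m)
    rw [show (2 : ℕ) ^ 3 = 8 by norm_num] at h8
    rw [← h8, ← pow_mul, mul_comm]
  rw [e1, SEL2_mul hTGR]
  have e2 : ∀ v ∈ (range (e ^ 2 + 1)).filter (fun v => Odd v ∧ v ^ 2 ≤ e ^ 2),
      coeff (e ^ 2 - v ^ 2) (ex 8 (DD ^ m)) = coeff ((e ^ 2 - v ^ 2) / 8) (DD ^ m) := by
    intro v hv
    rw [Finset.mem_filter] at hv
    unfold ex
    rw [coeff_mk, if_pos]
    obtain ⟨-, ⟨v', hv'⟩, hle⟩ := hv
    obtain ⟨e', he'⟩ := he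
    have hv2 : v ^ 2 % 8 = 1 := by
      have h1 : v % 8 = 1 ∨ v % 8 = 3 ∨ v % 8 = 5 ∨ v % 8 = 7 := by omega
      rcases h1 with h1 | h1 | h1 | h1 <;> rw [Nat.pow_mod, h1]
    have he2 : e ^ 2 % 8 = 1 := by
      have h1 : e % 8 = 1 ∨ e % 8 = 3 ∨ e % 8 = 5 ∨ e % 8 = 7 := by omega
      rcases h1 with h1 | h1 | h1 | h1 <;> rw [Nat.pow_mod, h1]
    omega
  rw [Finset.sum_congr rfl e2]
  have e3 : ∑ v ∈ (range (e ^ 2 + 1)).filter (fun v => Odd v ∧ v ^ 2 ≤ e ^ 2),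
      coeff ((e ^ 2 - v ^ 2) / 8) (DD ^ m) =
      ∑ v ∈ (range e).filter (fun v => Odd v), coeff ((e ^ 2 - v ^ 2) / 8) (DD ^ m) := by
    symm
    apply Finset.sum_subset
    · intro v hv
      rw [Finset.mem_filter, Finset.mem_range] at hv ⊢
      have h1 : v ^ 2 ≤ e ^ 2 := Nat.pow_le_pow_left hv.1.le 2
      have h2 : v ≤ v ^ 2 := Nat.le_self_pow (by norm_num) v
      exact ⟨by omega, hv.2, h1⟩
    · intro v hv hv'
      rw [Finset.mem_filter, Finset.mem_range] at hv hv'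
      have h1 : v ≤ e := (Nat.pow_le_pow_iff_left (by norm_num)).1 hv.2.2
      have h2 : v = e := by
        by_contra h
        exact hv' ⟨by omega, hv.2.1⟩
      rw [h2, Nat.sub_self, Nat.zero_div, SEL2_zero hTGR m hm]
  rw [e3]
  refine Finset.sum_bij' (fun v _ => if 4 ∣ e + v then ((e + v) / 4, e - 2 * ((e + v) / 4)) else
    ((e - v) / 4, e - 2 * ((e - v) / 4))) (fun x _ => (2 * x.1 - x.2) + (x.2 - 2 * x.1)) ?_ ?_ ?_ ?_ ?_
  · intro v hv
    rw [Finset.mem_filter, Finset.mem_range] at hv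
    obtain ⟨hv1, v', hv'⟩ := hv
    obtain ⟨e', he'⟩ := he
    rw [SEL2_mem]
    split_ifs with h4
    · simp only
      omega
    · simp only
      have h4' : 4 ∣ e - v := by omega
      omega
  · intro x hx
    rw [SEL2_mem] at hx
    obtain ⟨e', he'⟩ := he
    rw [Finset.mem_filter, Finset.mem_range]
    refine ⟨by omega, ?_⟩
    rw [Nat.odd_iff]
    omega
  · intro v hv
    rw [Finset.mem_filter, Finset.mem_range] at hv
    obtain ⟨hv1, v', hv'⟩ := hv
    obtain ⟨e', he'⟩ := he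
    split_ifs with h4
    · simp only
      omega
    · simp only
      have h4' : 4 ∣ e - v := by omega
      omega
  · rintro ⟨a, b⟩ hx
    rw [SEL2_mem] at hx
    obtain ⟨e', he'⟩ := he
    simp only at hx ⊢
    split_ifs with h4
    · ext
      · simp only
        omega
      · simp only
        omega
    · ext
      · simp only
        omega
      · simp only
        omega
  · intro v hv
    rw [Finset.mem_filter, Finset.mem_range] at hv
    obtain ⟨hv1, v', hv'⟩ := hv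
    obtain ⟨e', he'⟩ := he
    congr 2
    split_ifs with h4
    · simp only
      obtain ⟨k, hk⟩ := h4
      have hk1 : (e + v) / 4 = k := by omega
      rw [hk1]
      obtain ⟨b, hb⟩ : ∃ b, b = e - 2 * k := ⟨_, rfl⟩
      have hb1 : e = 2 * b + v := by omega
      have hb2 : 2 * k = b + v := by omega
      rw [← hb]
      have : e ^ 2 - v ^ 2 = 8 * (k * b) := by
        have : e ^ 2 = 8 * (k * b) + v ^ 2 := by
          rw [hb1]
          have : 8 * (k * b) = 4 * (2 * k) * b := by ring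
          rw [this, hb2]
          ring
        omega
      rw [this, Nat.mul_div_cancel_left _ (by norm_num)]
    · simp only
      have h4' : 4 ∣ e - v := by omega
      obtain ⟨k, hk⟩ := h4'
      have hk1 : (e - v) / 4 = k := by omega
      rw [hk1]
      obtain ⟨b, hb⟩ : ∃ b, b = e - 2 * k := ⟨_, rfl⟩
      have hb1 : e = 4 * k + v := by omega
      have hb2 : b = 2 * k + v := by omega
      rw [← hb]
      have : e ^ 2 - v ^ 2 = 8 * (k * b) := by
        have : e ^ 2 = 8 * (k * b) + v ^ 2 := by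
          rw [hb1, hb2]
          ring
        omega
      rw [this, Nat.mul_div_cancel_left _ (by norm_num)]

theorem SEL2 (hTGR : TGR_stmt) (hEXP : EXP_stmt) : SEL2_stmt := by
  intro m hm n hn
  rw [coeff_Psi, if_pos (Nat.coprime_two_right.2 hn)]
  have hn0 : n ≠ 0 := by
    rintro rfl
    exact absurd hn (by decide)
  have h1 : ∑ e ∈ n.divisors, coeff (e ^ 2) (DD ^ (1 + 8 * m)) =
      ∑ e ∈ n.divisors, ∑ x ∈ SEL2_S 2 1 e, coeff (x.1 * x.2) (DD ^ m) := by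
    refine Finset.sum_congr rfl fun e he => ?_
    rw [Nat.mem_divisors] at he
    exact SEL2_e hTGR hEXP m hm e (Odd.of_dvd_nat hn he.1)
  rw [h1, SEL2_swap (fun k => coeff k (DD ^ m)) 2 1 n hn0]
  unfold KS SEL2_S
  refine Finset.sum_congr rfl fun x _ => ?_
  rw [coeff_T]

end Pool.Agent.LQ
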